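import Pool.Agent.Helper63.OC.Full
import Pool.Agent.Helper63.OC.LowerB

/-!
# MP_cde131_lc : on-line colouring of comparability graphs
-/

set_option autoImplicit false

namespace Pool.Agent.Results.MP_cde131_lc.Comparability

/-- An on-line algorithm: a colour for the last vertex of the graph seen so far. -/
abbrev Algorithm : Type := (m : ℕ) → SimpleGraph (Fin m) → ℕ

/-- the colour given to the vertex `i` when the vertices are presented in the order `0, 1, ...` -/
def colour (A : Algorithm) {n : ℕ} (G : SimpleGraph (Fin n)) (i : Fin n) : ℕ :=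
  A (i.val + 1) (SimpleGraph.comap (Fin.castLE (Nat.succ_le_of_lt i.isLt)) G)

/-- adjacent vertices get different colours -/
def Proper (A : Algorithm) {n : ℕ} (G : SimpleGraph (Fin n)) : Prop :=
  ∀ i j : Fin n, G.Adj i j → colour A G i ≠ colour A G j

/-- number of colours used -/
def numColours (A : Algorithm) {n : ℕ} (G : SimpleGraph (Fin n)) : ℕ :=
  (Finset.univ.image (colour A G)).card

/-- `G` is the comparability graph of a strict partial order -/
def IsComparability {n : ℕ} (G : SimpleGraph (Fin n)) : Prop :=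
  ∃ r : Fin n → Fin n → Prop, (∀ a, ¬ r a a) ∧ (∀ a b c, r a b → r b c → r a c) ∧
    ∀ a b, G.Adj a b ↔ r a b ∨ r b a

/-- The on-line colouring problem for `k`-colourable comparability graphs has order
`(log n)^(k-1)`: one algorithm, not knowing `n`, always uses at most `(5 (k+1)^4 log n)^(k-1)`
colours, and every algorithm (even knowing `n`) can be forced to use `(log n / (4 k))^(k-1)`. -/
theorem result (k : ℕ) (hk : 1 ≤ k) :
    (∃ A : Algorithm, ∀ n : ℕ, 2 ≤ n → ∀ G : SimpleGraph (Fin n), G.Colorable k →
      IsComparability G →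
        Proper A G ∧ (numColours A G : ℝ) ≤ (5 * (k + 1 : ℝ) ^ 4 * Real.log n) ^ (k - 1)) ∧
    (∀ n : ℕ, 2 ≤ n → ∀ A : Algorithm, ∃ G : SimpleGraph (Fin n), G.Colorable k ∧
      IsComparability G ∧
        (Proper A G → (Real.log n / (4 * k)) ^ (k - 1) ≤ (numColours A G : ℝ))) := by
  constructor
  · refine ⟨Pool.Agent.Helper63.OC.alg k, ?_⟩
    rintro n hn G hG ⟨r, h1, h2, h3⟩
    have h := Pool.Agent.Helper63.OC.main hk hn G hG r h1 h2 h3
    rw [← mul_pow] at h
    exact h
  · intro n hn A
    exact Pool.Agent.Helper63.OC.lower hk hn A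

end Pool.Agent.Results.MP_cde131_lc.Comparability
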