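import Pool.Agent.Helper24.OCM.Full

/-!
# MP_cde131_lc : on-line colouring of Meyniel graphs
-/

set_option autoImplicit false

namespace Pool.Agent.Results.MP_cde131_lc.MeynielGraphs

/-- An on-line algorithm: a colour for the last vertex of the graph seen so far. -/
abbrev Algorithm : Type := (m : ℕ) → SimpleGraph (Fin m) → ℕ

/-- the colour given to the vertex `i` when the vertices are presented in the order `0, 1, ...` -/
def colour (A : Algorithm) {n : ℕ} (G : SimpleGraph (Fin n)) (i : Fin n) : ℕ :=
  A (i.val + 1) (SimpleGraph.comap (Fin.castLE (Nat.succ_le_of_lt i.isLt)) G)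

/-- adjacent vertices get different colours -/
def Proper (A : Algorithm) {n : ℕ} (G : SimpleGraph (Fin n)) : Prop :=
  ∀ i j : Fin n, G.Adj i j → colour A G i ≠ colour A G j

/-- number of colours used -/
def numColours (A : Algorithm) {n : ℕ} (G : SimpleGraph (Fin n)) : ℕ :=
  (Finset.univ.image (colour A G)).card

/-- `f i`, `f j` are adjacent, but not consecutive on the cycle `f` -/
def IsChord {V : Type*} (G : SimpleGraph V) {L : ℕ} (f : ZMod L → V) (i j : ZMod L) : Prop :=
  G.Adj (f i) (f j) ∧ j ≠ i + 1 ∧ i ≠ j + 1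

/-- Meyniel graph: every cycle of odd length at least `5` has at least two chords. A cycle of
length `L` is an injective map `f` on `ZMod L` with `f i` adjacent to `f (i + 1)`. -/
def IsMeyniel {V : Type*} (G : SimpleGraph V) : Prop :=
  ∀ L : ℕ, Odd L → 5 ≤ L → ∀ f : ZMod L → V, Function.Injective f →
    (∀ i, G.Adj (f i) (f (i + 1))) →
    ∃ i j k l : ZMod L, IsChord G f i j ∧ IsChord G f k l ∧ s(i, j) ≠ s(k, l)

/-- One on-line algorithm, not knowing `n`, properly colours every `k`-colourable Meyniel graph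
on `n` vertices with at most `(6 log n)^(k-1)` colours. -/
theorem result (k : ℕ) (hk : 1 ≤ k) :
    ∃ A : Algorithm, ∀ n : ℕ, 2 ≤ n → ∀ G : SimpleGraph (Fin n), G.Colorable k →
      IsMeyniel G →
        Proper A G ∧ (numColours A G : ℝ) ≤ (6 * Real.log n) ^ (k - 1) :=
  ⟨Pool.Agent.Helper24.OCM.alg2 k, fun _ hn G hG hM =>
    Pool.Agent.Helper24.OCM.main2 hk hn G hG hM⟩

end Pool.Agent.Results.MP_cde131_lc.MeynielGraphs
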