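import Pool.Agent.Helper78.Q1.NUM2

/-!
# MP_cde131_lc : on-line colouring of graphs without odd holes with polylogarithmically many colours
-/

set_option autoImplicit false

namespace Pool.Agent.Results.MP_cde131_lc.PolylogOddHoleFree

/-- An on-line algorithm: a colour for the last vertex of the graph seen so far. -/
abbrev Algorithm : Type := (m : ℕ) → SimpleGraph (Fin m) → ℕ

/-- the colour given to the vertex `i` when the vertices are presented in the order `0, 1, ...` -/
def colour (A : Algorithm) {n : ℕ} (G : SimpleGraph (Fin n)) (i : Fin n) : ℕ :=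
  A (i.val + 1) (SimpleGraph.comap (Fin.castLE (Nat.succ_le_of_lt i.isLt)) G)

/-- adjacent vertices get different colours -/
def Proper (A : Algorithm) {n : ℕ} (G : SimpleGraph (Fin n)) : Prop :=
  ∀ i j : Fin n, G.Adj i j → colour A G i ≠ colour A G j

/-- number of colours used -/
def numColours (A : Algorithm) {n : ℕ} (G : SimpleGraph (Fin n)) : ℕ :=
  (Finset.univ.image (colour A G)).card

/-- perfect: every induced subgraph has a colouring and a clique of the same size -/
def IsPerfect {n : ℕ} (G : SimpleGraph (Fin n)) : Prop :=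
  ∀ S : Set (Fin n), ∃ m : ℕ, (G.induce S).Colorable m ∧
    ∃ s : Finset (Fin n), (↑s : Set (Fin n)) ⊆ S ∧ G.IsNClique m s

/-- no induced cycle of odd length at least `5` -/
def NoOddHole {n : ℕ} (G : SimpleGraph (Fin n)) : Prop :=
  ∀ L : ℕ, Odd L → 5 ≤ L → IsEmpty (SimpleGraph.cycleGraph L ↪g G)

/-- For every `k ≥ 1` there is one on-line algorithm, which does not know `n`, and which properly
colours every `k`-colourable graph on `n ≥ 2` vertices which is perfect, or more generally has no
induced odd cycle of length at least `5`, with at most `((k + 1) (6 log n) ^ (k + 5)) ^ (k - 1)`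
colours. -/
theorem result (k : ℕ) (hk : 1 ≤ k) : ∃ A : Algorithm, ∀ n : ℕ, 2 ≤ n →
    ∀ G : SimpleGraph (Fin n), G.Colorable k → (IsPerfect G ∨ NoOddHole G) →
      Proper A G ∧
      (numColours A G : ℝ) ≤ (((k : ℝ) + 1) * (6 * Real.log n) ^ (k + 5)) ^ (k - 1) := by
  refine ⟨Pool.Agent.Helper78.Q1.algo k, fun n hn G hG h => ?_⟩
  have hoh : Pool.Agent.Helper63.PG.NOH (Pool.Agent.Helper63.OC.liftG G) := by
    rcases h with h | h
    · exact Pool.Agent.Helper72.PG.hPER G h
    · exact Pool.Agent.Helper64.PG.hOHL G h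
  obtain ⟨h1, h2⟩ := Pool.Agent.Helper78.Q1.main k n G (by omega) hG hoh
  refine ⟨h1, ?_⟩
  have h3 := Pool.Agent.Helper78.Q1.bnd_le k n hn
  rw [show k - 1 + 6 = k + 5 by omega] at h3
  exact le_trans (by exact_mod_cast h2) h3

end Pool.Agent.Results.MP_cde131_lc.PolylogOddHoleFree
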